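import Pool.Agent.Work.MP_19ad76_gt.Classes

/-!
The convex bodies homothetic to their second projection body are the direct sums of segments,
centrally symmetric planar bodies, and smooth bodies with that property.
-/

set_option autoImplicit false

namespace Pool.Agent.Results.MP_19ad76_gt.SolutionSplitting

open Pool.Agent.Work.MP_19ad76_gt
open scoped Pointwise

/-- A set `K` in `ℝⁿ` is a convex body homothetic to its second projection body if and only if it
is a direct sum of convex bodies `C i`, each of which is a segment, or a centrally symmetric planar
body, or a smooth body of dimension at least three that is homothetic to its second projection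
body. -/
theorem result (n : ℕ) (K : Set (EuclideanSpace ℝ (Fin n))) :
    (IsBody K ∧ SecondHomothetic K) ↔
    ∃ (m : ℕ) (L : Fin m → Submodule ℝ (EuclideanSpace ℝ (Fin n))) (C : (i : Fin m) → Set (L i)),
      DirectSum.IsInternal L ∧
      K = ∑ i, ((fun x => (x : EuclideanSpace ℝ (Fin n))) : L i → EuclideanSpace ℝ (Fin n)) '' C i ∧
      ∀ i, IsBody (C i) ∧
        (Module.finrank ℝ (L i) = 1 ∨
          (Module.finrank ℝ (L i) = 2 ∧ CentrallySymmetric (C i)) ∨
          (3 ≤ Module.finrank ℝ (L i) ∧ IsSmooth (C i) ∧ SecondHomothetic (C i))) :=
  characterization K

end Pool.Agent.Results.MP_19ad76_gt.SolutionSplitting
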